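import Mathlib
import Pool.Agent.Helper307.Worm.Main

set_option autoImplicit false

open MeasureTheory Set Metric

namespace Pool.Agent.Results.MP_f477b1_co.PositiveLowerBound

/-- A worm: the image of `[0,1]` under a 1-Lipschitz map into the plane (the plane is `ℂ`). -/
def IsWorm (w : Set ℂ) : Prop :=
  ∃ f : ℝ → ℂ, LipschitzOnWith 1 f (Icc 0 1) ∧ w = f '' Icc 0 1

/-- A worm cover: a Lebesgue measurable set `X` such that every worm is contained in the image
of `X` under some orientation-preserving rigid motion `z ↦ c * z + v`, `|c| = 1`. -/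
def IsWormCover (X : Set ℂ) : Prop :=
  NullMeasurableSet X volume ∧
    ∀ w, IsWorm w → ∃ c v : ℂ, ‖c‖ = 1 ∧ w ⊆ (fun z => c * z + v) '' X

/-- The greatest lower bound of the areas of worm covers. -/
noncomputable def mu : ENNReal := ⨅ (X : Set ℂ) (_ : IsWormCover X), volume X

/-- **Moser's worm problem**: a positive lower bound for the area of all (not necessarily convex)
worm covers. -/
theorem result : ENNReal.ofReal (1 / 2 ^ 44) ≤ mu := by
  refine le_iInf fun X => le_iInf fun hX => ?_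
  by_contra hlt
  push Not at hlt
  obtain ⟨W, hXW, hWo, hWv⟩ := X.exists_isOpen_lt_of_lt _ hlt
  have hcov : ∀ f : ℝ → ℂ, LipschitzWith 1 f →
      ∃ c τ : ℂ, ‖c‖ = 1 ∧ ∀ t ∈ Icc (0 : ℝ) 1, c * f t + τ ∈ W := by
    intro f hf
    obtain ⟨c, v, hc, hsub⟩ := hX.2 (f '' Icc 0 1) ⟨f, hf.lipschitzOnWith, rfl⟩
    have hc0 : c ≠ 0 := by
      intro h
      rw [h, norm_zero] at hc
      exact zero_ne_one hc
    refine ⟨c⁻¹, -(c⁻¹ * v), by rw [norm_inv, hc, inv_one], fun t ht => ?_⟩
    obtain ⟨z, hz, hzt⟩ := hsub ⟨t, ht, rfl⟩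
    have h1 : c⁻¹ * f t + -(c⁻¹ * v) = z := by
      rw [← hzt]
      field_simp
      ring
    rw [h1]
    exact hXW hz
  obtain ⟨V, hVo, hVb, hVv, hVc⟩ := H307W.fold W hWo hcov
  refine H307W.main_step V hVo hVb ?_ hVc
  calc volume V ≤ 16 * volume W := hVv
    _ ≤ 16 * ENNReal.ofReal (1 / 2 ^ 44) := by gcongr
    _ = ENNReal.ofReal (1 / 2 ^ 40) := by
      rw [← ENNReal.ofReal_ofNat 16, ← ENNReal.ofReal_mul (by norm_num)]
      norm_num

end Pool.Agent.Results.MP_f477b1_co.PositiveLowerBound
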